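import Pool.Agent.W2helper81.TX.Final

/-!
# Calabi-Yau hypersurfaces in complete toric varieties form finitely many families

Let `V` be a complete simplicial (for instance smooth) toric variety of dimension `m ≥ 2` with fan
`F`; nothing else is assumed: `V` need not be projective, and `-K_V` need not be nef.  Let `X ⊂ V`
be a quasi-smooth (for instance smooth) hypersurface, in the class of any torus invariant divisor
`∑ d_v D_v`, some power of whose canonical bundle is trivialised by a character of the torus.  (If
`V` and `X` are smooth, `X` is connected and `K_X` is trivial, this holds because `H^1(V, K_V) = 0`
and `H^0(V, K_V + X)` is spanned by characters.)  Let `V_X` be the open toric subvariety of `V`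
obtained by removing all torus invariant divisors which do not meet `X`; it contains `X`.

**Theorem.** For every `m ≥ 2` there are a finite set `𝓢` of fans and a finite set `M` of exponents
such that, after a change of coordinates of the torus and the multiplication of the equation with a
monomial, the fan of `V_X` is in `𝓢` and the equation of `X` is a Laurent polynomial with exponents
in `M`.  Moreover `X` contains no torus invariant divisor; so `X` is the closure in `V_X` of the
zero set of its equation in the torus.

So all these `X` are members of finitely many algebraic families, each parametrised by a part of the
space of coefficients.  In particular there are only finitely many topological types of smooth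
Calabi-Yau varieties of dimension `m - 1` which occur in this way (Ehresmann; not formalised).

Idea.  Quasi-smoothness at the torus fixed points and along the torus invariant divisors, together
with the triviality of a power of the canonical bundle, forces the origin to be an interior point
of the (shifted and rescaled) Newton polytope.  The compactness of `X` shows that it is the only
interior point in the lattice belonging to the canonical cover of `X` (a nontrivial character is
unbounded on the zero set in the torus, but the characters of the other interior points would be
bounded there).  Hensley's lemma on barycentric coordinates bounds such polytopes.  The divisors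
which meet `X` correspond to lattice points of the polar polytope.
-/

set_option autoImplicit false

namespace Pool.Agent.Results.MP_3d72f2_ag.ToricHypersurfaces

open Pool.Agent.W2helper81.TV Pool.Agent.W2helper81.TX

/-- **Finiteness of the families of Calabi-Yau hypersurfaces in complete simplicial toric
varieties of dimension `m`.** -/
theorem result (m : ℕ) (hm : 2 ≤ m) :
    ∃ (𝓢 : Finset (Fan m)) (M : Finset (Fin m → ℤ)),
      ∀ (F : Fan m) (d : (Fin m → ℤ) → ℤ) (f : (Fin m → ℤ) →₀ ℂ),
        IsCompleteSimplicial F → IsSection F d f → QuasiSmooth F d f → TorsionCanonical F d f →
        ∃ (g h : Matrix (Fin m) (Fin m) ℤ) (t : Fin m → ℤ), g * h = 1 ∧ h * g = 1 ∧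
          mapFan g (relevantFan F d f) ∈ 𝓢 ∧
          (∀ u ∈ f.support, h.transpose.mulVec u + t ∈ M) ∧
          ∀ σ ∈ relevantFan F d f, ∀ v ∈ σ, ∃ u ∈ f.support, pr u v = -(d v) :=
  finalThm m hm

end Pool.Agent.Results.MP_3d72f2_ag.ToricHypersurfaces
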